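import Mathlib

set_option maxHeartbeats 4000000
set_option linter.unusedSectionVars false

namespace Pool.Agent.Results.MP_1304b2_co.LeafRemoval

variable {V : Type} [Fintype V] [DecidableEq V]

/-- `v` is a leaf of the position in which exactly the vertices of `S` are left: it is left and
it has at most one neighbour that is left. -/
def IsLeaf (G : SimpleGraph V) (S : Finset V) (v : V) : Prop :=
  v ∈ S ∧ ∀ a ∈ S, ∀ b ∈ S, G.Adj v a → G.Adj v b → a = b

/-- `Wins G white p S k`: the player `p` (`true` is White = Left, `false` is Black = Right), who is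
to move, wins under normal play the disjunctive sum of the leaf-removal position with remaining
vertex set `S` and the integer game `k` (for `k > 0` its only option is `k - 1`, for Left; for
`k < 0` its only option is `k + 1`, for Right; the game `0` has no options). -/
def Wins (G : SimpleGraph V) (white : V → Bool) (p : Bool) (S : Finset V) (k : ℤ) : Prop :=
  (∃ v, ∃ _ : v ∈ S, IsLeaf G S v ∧ white v = p ∧ ¬ Wins G white (!p) (S.erase v) k) ∨
  (∃ _ : p = true ∧ 0 < k, ¬ Wins G white (!p) S (k - 1)) ∨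
  (∃ _ : p = false ∧ k < 0, ¬ Wins G white (!p) S (k + 1))
termination_by S.card + k.natAbs
decreasing_by
  · rename_i h
    have := Finset.card_erase_lt_of_mem h
    omega
  · rename_i h
    omega
  · rename_i h
    omega

/-- The leaf-removal game on the whole graph has value the integer `n`: whoever starts, the
second player wins the sum of the game and the integer game `-n`. -/
def HasValue (G : SimpleGraph V) (white : V → Bool) (n : ℤ) : Prop :=
  ∀ p : Bool, ¬ Wins G white p Finset.univ (-n)

/-- Let `u`, `v` be adjacent vertices of a tree. The branch at `v` (the component containing `v`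
after the removal of `u`; `x` belongs to it iff `dist u x = dist v x + 1`) is *blocked* if, the
tree being rooted at `u`, it contains `x`, a child `y` of `x` and a child `z` of `y` such that
`x` and `y` have the same colour and `z` has the other colour. -/
def Blocked (G : SimpleGraph V) (white : V → Bool) (u v : V) : Prop :=
  ∃ x y z, G.dist u x = G.dist v x + 1 ∧
    G.Adj x y ∧ G.dist u y = G.dist u x + 1 ∧
    G.Adj y z ∧ G.dist u z = G.dist u y + 1 ∧
    white x = white y ∧ white z ≠ white y

/-- A vertex `v` is *essential* if it has no neighbour, or if it has a neighbour `u` such that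
the branch at `v`, seen from `u`, is not blocked. -/
def Essential (G : SimpleGraph V) (white : V → Bool) (v : V) : Prop :=
  (∀ u, ¬ G.Adj v u) ∨ ∃ u, G.Adj v u ∧ ¬ Blocked G white u v

/-!
### Proof

The proof works with an arbitrary set `S` of remaining vertices. A dart `(a, b)` is a pair of
adjacent vertices, `Step` continues a walk without turning back, `Blk` and `Ess` are the versions
of `Blocked` and `Essential` inside `S`. Removing a leaf of colour `κ` keeps all other essential
vertices essential and creates at most as many new ones of colour `κ` as of the other colour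
(`new_le`); if every leaf of colour `κ` creates new essential vertices, then at most half of the
essential vertices have colour `κ` (`all_bad`). An induction (`wins_iff`) finishes the proof.
-/

section internal

variable (G : SimpleGraph V)

def Step (S : Finset V) (x y : V × V) : Prop :=
  y.1 = x.2 ∧ y.2 ∈ S ∧ G.Adj x.2 y.2 ∧ y.2 ≠ x.1

def Reach (S : Finset V) : V × V → V × V → Prop := Relation.ReflTransGen (Step G S)

def Blk (c : V → Bool) (S : Finset V) (d : V × V) : Prop :=
  ∃ e f g, Reach G S d e ∧ Step G S e f ∧ Step G S f g ∧ c e.2 = c f.2 ∧ c g.2 ≠ c f.2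

def Ess (c : V → Bool) (S : Finset V) (v : V) : Prop :=
  v ∈ S ∧ ((∀ u ∈ S, ¬ G.Adj v u) ∨ ∃ u ∈ S, G.Adj v u ∧ ¬ Blk G c S (u, v))

variable {G}

lemma closer_unique (hG : G.IsTree) {r v a b : V} (hva : G.Adj v a) (hvb : G.Adj v b)
    (ha : G.dist r a < G.dist r v) (hb : G.dist r b < G.dist r v) : a = b := by
  obtain ⟨p, hp⟩ := hG.connected.exists_walk_length_eq_dist a r
  obtain ⟨q, hq⟩ := hG.connected.exists_walk_length_eq_dist b r
  have e1 := hG.dist_eq_dist_add_one_of_adj r hva
  have e2 := hG.dist_eq_dist_add_one_of_adj r hvb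
  have c1 := G.dist_comm (u := r) (v := v)
  have c2 := G.dist_comm (u := r) (v := a)
  have c3 := G.dist_comm (u := r) (v := b)
  have h1 : (SimpleGraph.Walk.cons hva p).IsPath := by
    apply SimpleGraph.Walk.isPath_of_length_eq_dist
    rw [SimpleGraph.Walk.length_cons]
    omega
  have h2 : (SimpleGraph.Walk.cons hvb q).IsPath := by
    apply SimpleGraph.Walk.isPath_of_length_eq_dist
    rw [SimpleGraph.Walk.length_cons]
    omega
  have h3 := (hG.isAcyclic.subsingleton_path v r).elim ⟨_, h1⟩ ⟨_, h2⟩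
  have h4 := congrArg (fun t : G.Path v r => t.1.snd) h3
  simpa using h4

/-- If `a` is closer to `r` than its neighbour `v`, every other neighbour of `v` is farther. -/
lemma farther (hG : G.IsTree) {r v a b : V} (hva : G.Adj v a) (hvb : G.Adj v b) (hab : b ≠ a)
    (ha : G.dist r a < G.dist r v) : G.dist r v < G.dist r b := by
  by_contra h
  have e2 := hG.dist_eq_dist_add_one_of_adj r hvb
  exact hab (closer_unique hG hvb hva (by omega) ha)

lemma step_mono {S T : Finset V} (h : S ⊆ T) {x y : V × V} (hs : Step G S x y) :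
    Step G T x y := ⟨hs.1, h hs.2.1, hs.2.2.1, hs.2.2.2⟩

lemma reach_mono {S T : Finset V} (h : S ⊆ T) {x y : V × V} (hs : Reach G S x y) :
    Reach G T x y := Relation.ReflTransGen.mono (fun _ _ h' => step_mono h h') _ _ hs

lemma blk_mono {c : V → Bool} {S T : Finset V} (h : S ⊆ T) {d : V × V} (hb : Blk G c S d) :
    Blk G c T d := by
  obtain ⟨e, f, g, h1, h2, h3, h4, h5⟩ := hb
  exact ⟨e, f, g, reach_mono h h1, step_mono h h2, step_mono h h3, h4, h5⟩

lemma blk_of_reach {c : V → Bool} {S : Finset V} {d d' : V × V} (hr : Reach G S d d')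
    (hb : Blk G c S d') : Blk G c S d := by
  obtain ⟨e, f, g, h1, h2, h3, h4, h5⟩ := hb
  exact ⟨e, f, g, hr.trans h1, h2, h3, h4, h5⟩

lemma reach_adj {S : Finset V} {d e : V × V} (hd : G.Adj d.1 d.2) (h : Reach G S d e) :
    G.Adj e.1 e.2 := by
  induction h with
  | refl => exact hd
  | tail _ hs ih => rw [hs.1]; exact hs.2.2.1

lemma reach_away (hG : G.IsTree) {S : Finset V} {r : V} {d e : V × V} (hd : G.Adj d.1 d.2)
    (hr : G.dist r d.1 < G.dist r d.2) (h : Reach G S d e) :
    G.dist r e.1 < G.dist r e.2 := by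
  induction h with
  | refl => exact hr
  | tail hre hs ih =>
    rw [hs.1]
    exact farther hG (reach_adj hd hre).symm hs.2.2.1 hs.2.2.2 ih

lemma reach_le (hG : G.IsTree) {S : Finset V} {r : V} {d e : V × V} (hd : G.Adj d.1 d.2)
    (hr : G.dist r d.1 < G.dist r d.2) (h : Reach G S d e) :
    G.dist r d.2 ≤ G.dist r e.2 := by
  induction h with
  | refl => exact le_rfl
  | tail hre hs ih =>
    have := reach_away hG hd hr (hre.tail hs)
    rw [hs.1] at this
    omega

lemma reach_toward (hG : G.IsTree) {S : Finset V} {d e : V × V} (hd : G.Adj d.1 d.2)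
    (h : Reach G S d e) : G.dist e.2 d.2 < G.dist e.2 d.1 := by
  induction h using Relation.ReflTransGen.head_induction_on with
  | refl =>
    rw [SimpleGraph.dist_self]
    exact hG.connected.pos_dist_of_ne hd.ne'
  | head hs hre ih =>
    rename_i x y
    have h1 : G.Adj y.1 y.2 := by rw [hs.1]; exact hs.2.2.1
    have h2 := ih h1
    rw [hs.1] at h2
    exact farther hG hs.2.2.1 hd.symm hs.2.2.2.symm h2

lemma no_both (hG : G.IsTree) {S : Finset V} {a b : V} {e e' : V × V} (hd : G.Adj a b)
    (h : Reach G S (a, b) e) (h' : Reach G S (b, a) e') (he : e.2 = e'.2) : False := by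
  have h1 := reach_toward hG (d := (a, b)) hd h
  have h2 := reach_toward hG (d := (b, a)) hd.symm h'
  simp only [he] at h1
  simp only at h2
  omega

/-- Head membership along a walk. -/
lemma reach_mem {S : Finset V} {d e : V × V} (h1 : d.1 ∈ S) (h2 : d.2 ∈ S)
    (h : Reach G S d e) : e.1 ∈ S ∧ e.2 ∈ S := by
  induction h with
  | refl => exact ⟨h1, h2⟩
  | tail _ hs ih => exact ⟨by rw [hs.1]; exact ih.2, hs.2.1⟩

/-- From any dart one reaches a leaf of `S`. -/
lemma end_leaf (hG : G.IsTree) {S : Finset V} {d : V × V} (h1 : d.1 ∈ S) (h2 : d.2 ∈ S)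
    (hd : G.Adj d.1 d.2) : ∃ e, Reach G S d e ∧ IsLeaf G S e.2 ∧ e.1 ∈ S ∧ G.Adj e.2 e.1 := by
  classical
  obtain ⟨e, he, hmax⟩ := Finset.exists_max_image
    (Finset.univ.filter (fun e : V × V => Reach G S d e)) (fun e => G.dist d.1 e.2)
    ⟨d, by simp only [Finset.mem_filter, Finset.mem_univ, true_and]; exact .refl⟩
  simp only [Finset.mem_filter, Finset.mem_univ, true_and] at he hmax
  have hr : G.dist d.1 d.1 < G.dist d.1 d.2 := by
    rw [SimpleGraph.dist_self]
    exact hG.connected.pos_dist_of_ne hd.ne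
  have hadj := reach_adj hd he
  have hmem := reach_mem h1 h2 he
  have hno : ∀ b ∈ S, G.Adj e.2 b → b = e.1 := by
    intro b hb hadjb
    by_contra hne
    have hs : Step G S e (e.2, b) := ⟨rfl, hb, hadjb, hne⟩
    have h3 := reach_away hG hd hr (he.tail hs)
    have h4 := hmax _ (he.tail hs)
    simp only at h3 h4
    omega
  exact ⟨e, he, ⟨hmem.2, fun a ha b hb hea heb => (hno a ha hea).trans (hno b hb heb).symm⟩,
    hmem.1, hadj.symm⟩

/-- After a monochromatic edge in an unblocked branch everything has the same colour. -/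
lemma uniform {c : V → Bool} {S : Finset V} {d d' e : V × V} (hb : ¬ Blk G c S d)
    (hs : Step G S d d') (hc : c d.2 = c d'.2) (h : Reach G S d' e) : c e.2 = c d.2 := by
  have key : c e.2 = c d.2 ∧ ∃ e0, Reach G S d e0 ∧ Step G S e0 e ∧ c e0.2 = c e.2 := by
    induction h with
    | refl => exact ⟨hc.symm, d, .refl, hs, hc⟩
    | @tail x y _ hst ih =>
      obtain ⟨ih1, e0, h1, h2, h3⟩ := ih
      have h4 : c y.2 = c x.2 := by
        by_contra hne
        exact hb ⟨e0, x, y, h1, h2, hst, h3, hne⟩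
      exact ⟨h4.trans ih1, x, h1.tail h2, hst, h4.symm⟩
  exact key.1

/-! ### Removing a leaf -/

lemma reach_erase {S : Finset V} {l : V} (hl : IsLeaf G S l) {d e : V × V} (hd1 : d.1 ∈ S)
    (hd2 : d.2 ∈ S) (hd : G.Adj d.1 d.2) (h : Reach G S d e) :
    Reach G (S.erase l) d e ∨ e.2 = l := by
  induction h with
  | refl => exact Or.inl .refl
  | @tail x y hre hs ih =>
    rcases ih with ih | ih
    · by_cases hy : y.2 = l
      · exact Or.inr hy
      · exact Or.inl (ih.tail ⟨hs.1, Finset.mem_erase.2 ⟨hy, hs.2.1⟩, hs.2.2.1, hs.2.2.2⟩)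
    · exfalso
      have h1 := reach_adj hd hre
      have h2 := reach_mem hd1 hd2 hre
      refine hs.2.2.2 (hl.2 _ hs.2.1 _ h2.1 ?_ ?_)
      · rw [← ih]; exact hs.2.2.1
      · rw [← ih]; exact h1.symm

lemma no_step_of_leaf {S : Finset V} {l : V} (hl : IsLeaf G S l) {x y : V × V} (hx1 : x.1 ∈ S)
    (hx : G.Adj x.1 x.2) (hxl : x.2 = l) (hs : Step G S x y) : False := by
  refine hs.2.2.2 (hl.2 _ hs.2.1 _ hx1 ?_ ?_)
  · rw [← hxl]; exact hs.2.2.1
  · rw [← hxl]; exact hx.symm

/-- A branch blocked in `S` but not after removing the leaf `l`. -/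
lemma L1 {c : V → Bool} {S : Finset V} {l : V} (hl : IsLeaf G S l) {d : V × V} (hd1 : d.1 ∈ S)
    (hd2 : d.2 ∈ S) (hd : G.Adj d.1 d.2) (hb : Blk G c S d) (hb' : ¬ Blk G c (S.erase l) d) :
    ∃ e f, Reach G (S.erase l) d e ∧ Step G (S.erase l) e f ∧ G.Adj f.2 l ∧ l ≠ f.1 ∧
      c e.2 = c f.2 ∧ c l ≠ c f.2 := by
  obtain ⟨e, f, g, h1, h2, h3, h4, h5⟩ := hb
  have a1 := reach_adj hd h1
  have m1 := reach_mem hd1 hd2 h1
  have a2 := reach_adj hd (h1.tail h2)
  have m2 := reach_mem hd1 hd2 (h1.tail h2)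
  have r1 : Reach G (S.erase l) d e := by
    rcases reach_erase hl hd1 hd2 hd h1 with h | h
    · exact h
    · exact (no_step_of_leaf hl m1.1 a1 h h2).elim
  have r2 : Step G (S.erase l) e f := by
    refine ⟨h2.1, Finset.mem_erase.2 ⟨?_, h2.2.1⟩, h2.2.2.1, h2.2.2.2⟩
    intro h
    exact no_step_of_leaf hl m2.1 a2 h h3
  have hg : g.2 = l := by
    by_contra hne
    exact hb' ⟨e, f, g, r1, r2, ⟨h3.1, Finset.mem_erase.2 ⟨hne, h3.2.1⟩, h3.2.2.1, h3.2.2.2⟩,
      h4, h5⟩
  refine ⟨e, f, r1, r2, ?_, ?_, h4, ?_⟩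
  · rw [← hg]; exact h3.2.2.1
  · rw [← hg]; exact h3.2.2.2
  · rw [← hg]; exact h5

/-- Every leaf is essential. -/
lemma leaf_ess (c : V → Bool) {S : Finset V} {l : V} (hl : IsLeaf G S l) : Ess G c S l := by
  refine ⟨hl.1, ?_⟩
  by_cases h : ∀ u ∈ S, ¬ G.Adj l u
  · exact Or.inl h
  · push Not at h
    obtain ⟨u, hu, hlu⟩ := h
    refine Or.inr ⟨u, hu, hlu, ?_⟩
    rintro ⟨e, f, g, h1, h2, h3, h4, h5⟩
    rcases Relation.ReflTransGen.cases_head h1 with h | ⟨x, hx, -⟩
    · subst h
      exact no_step_of_leaf hl (x := (u, l)) hu hlu.symm rfl h2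
    · exact no_step_of_leaf hl (x := (u, l)) hu hlu.symm rfl hx

/-- Essential vertices stay essential. -/
lemma ess_erase {c : V → Bool} {S : Finset V} {l v : V} (hl : IsLeaf G S l) (hv : Ess G c S v)
    (hvl : v ≠ l) : Ess G c (S.erase l) v := by
  have hsub : S.erase l ⊆ S := Finset.erase_subset l S
  refine ⟨Finset.mem_erase.2 ⟨hvl, hv.1⟩, ?_⟩
  rcases hv.2 with h | ⟨u, hu, hvu, hb⟩
  · exact Or.inl fun u hu => h u (hsub hu)
  · by_cases hul : u = l
    · subst hul
      by_cases hw : ∀ w ∈ S.erase u, ¬ G.Adj v w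
      · exact Or.inl hw
      · push Not at hw
        obtain ⟨w, hw, hvw⟩ := hw
        refine Or.inr ⟨w, hw, hvw, ?_⟩
        rintro ⟨e, f, g, h1, h2, h3, h4, h5⟩
        apply hb
        have lift : ∀ y, Step G (S.erase u) (w, v) y → Step G S (u, v) y := by
          intro y hy
          exact ⟨hy.1, hsub hy.2.1, hy.2.2.1, (Finset.mem_erase.1 hy.2.1).1⟩
        rcases Relation.ReflTransGen.cases_head h1 with h | ⟨x, hx, hx2⟩
        · subst h
          exact ⟨(u, v), f, g, .refl, lift _ h2, step_mono hsub h3, h4, h5⟩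
        · exact ⟨e, f, g, Relation.ReflTransGen.head (lift _ hx) (reach_mono hsub hx2),
            step_mono hsub h2, step_mono hsub h3, h4, h5⟩
    · exact Or.inr ⟨u, Finset.mem_erase.2 ⟨hul, hu⟩, hvu, fun h => hb (blk_mono hsub h)⟩

/-- Structure of a vertex that becomes essential when the leaf `l` is removed. -/
lemma new_struct {c : V → Bool} {S : Finset V} {l v : V}
    (hv : Ess G c (S.erase l) v) (hv' : ¬ Ess G c S v) :
    v ∈ S ∧ v ≠ l ∧ (∀ u ∈ S, G.Adj v u → Blk G c S (u, v)) ∧
    ∃ w ∈ S.erase l, G.Adj v w ∧ ¬ Blk G c (S.erase l) (w, v) := by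
  have hvS : v ∈ S := Finset.mem_of_mem_erase hv.1
  have hvl : v ≠ l := (Finset.mem_erase.1 hv.1).1
  have hblk : ∀ u ∈ S, G.Adj v u → Blk G c S (u, v) := by
    intro u hu hvu
    by_contra hb
    exact hv' ⟨hvS, Or.inr ⟨u, hu, hvu, hb⟩⟩
  refine ⟨hvS, hvl, hblk, ?_⟩
  rcases hv.2 with h | h
  · exfalso
    -- then `v` is a leaf of `S`
    apply hv'
    apply leaf_ess
    refine ⟨hvS, fun a ha b hb hva hvb => ?_⟩
    have h1 : a = l := by
      by_contra hne
      exact h a (Finset.mem_erase.2 ⟨hne, ha⟩) hva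
    have h2 : b = l := by
      by_contra hne
      exact h b (Finset.mem_erase.2 ⟨hne, hb⟩) hvb
    rw [h1, h2]
  · exact h

/-- Structure of a bad leaf. -/
lemma bad_struct (hG : G.IsTree) {c : V → Bool} {S : Finset V} {l v : V} (hl : IsLeaf G S l)
    (hv : Ess G c (S.erase l) v) (hv' : ¬ Ess G c S v) :
    ∃ u ∈ S, G.Adj l u ∧ c u ≠ c l ∧ Ess G c S u ∧ ∀ z ∈ S, G.Adj u z → z ≠ l → c z ≠ c l := by
  have hsub : S.erase l ⊆ S := Finset.erase_subset l S
  obtain ⟨hvS, hvl, hblk, w, hw, hvw, hnb⟩ := new_struct hv hv'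
  obtain ⟨e, f, r1, r2, hfl, hlf, hc1, hc2⟩ :=
    L1 hl (d := (w, v)) (hsub hw) hvS hvw.symm (hblk w (hsub hw) hvw) hnb
  have hf2 : f.2 ∈ S := hsub r2.2.1
  have hr : Reach G S (w, v) f := reach_mono hsub (r1.tail r2)
  have hf1 : f.1 ∈ S := (reach_mem (d := (w, v)) (hsub hw) hvS hr).1
  have hff : G.Adj f.1 f.2 := reach_adj (d := (w, v)) hvw.symm hr
  refine ⟨f.2, hf2, hfl.symm, fun h => hc2 h.symm, ⟨hf2, Or.inr ⟨f.1, hf1, hff.symm, ?_⟩⟩, ?_⟩
  · intro hB
    have hB' : ¬ Blk G c (S.erase l) f := fun h => hnb (blk_of_reach (r1.tail r2) h)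
    obtain ⟨e', f', q1, q2, hfl', -, -, -⟩ := L1 hl (d := f) hf1 hf2 hff hB hB'
    have he : f'.2 = f.2 := hl.2 _ (hsub q2.2.1) _ hf2 hfl'.symm hfl.symm
    have h0 : G.dist f.1 f.1 < G.dist f.1 f.2 := by
      rw [SimpleGraph.dist_self]
      exact hG.connected.pos_dist_of_ne hff.ne
    have h1 := reach_le hG hff h0 q1
    have h2 := reach_away hG hff h0 (q1.tail q2)
    rw [q2.1, he] at h2
    omega
  · intro z hz hfz hzl hcz
    by_cases hzf : z = f.1
    · rw [hzf, r2.1, hc1] at hcz
      exact hc2 hcz.symm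
    · refine hnb ⟨e, f, (f.2, z), r1, r2, ⟨rfl, Finset.mem_erase.2 ⟨hzl, hz⟩, hfz, hzf⟩, hc1, ?_⟩
      simp only
      rw [hcz]
      exact hc2

/-! ### Counting -/

open Classical in
/-- The number of essential vertices of a given colour. -/
noncomputable def E (G : SimpleGraph V) (c : V → Bool) (S : Finset V) (κ : Bool) : ℕ :=
  (Finset.univ.filter (fun v => Ess G c S v ∧ c v = κ)).card

open Classical in
/-- The vertices that become essential. -/
noncomputable def NewSet (G : SimpleGraph V) (c : V → Bool) (S : Finset V) (l : V) (κ : Bool) :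
    Finset V :=
  Finset.univ.filter (fun v => Ess G c (S.erase l) v ∧ ¬ Ess G c S v ∧ c v = κ)

lemma E_erase_same {c : V → Bool} {S : Finset V} {l : V} (hl : IsLeaf G S l) :
    E G c (S.erase l) (c l) + 1 = E G c S (c l) + (NewSet G c S l (c l)).card := by
  classical
  unfold E NewSet
  have h1 : (Finset.univ.filter (fun v => Ess G c S v ∧ c v = c l)) =
      insert l ((Finset.univ.filter (fun v => Ess G c S v ∧ c v = c l)).erase l) := by
    rw [Finset.insert_erase]
    simp only [Finset.mem_filter, Finset.mem_univ, true_and]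
    exact ⟨leaf_ess c hl, trivial⟩
  have h2 : (Finset.univ.filter (fun v => Ess G c (S.erase l) v ∧ c v = c l)) =
      ((Finset.univ.filter (fun v => Ess G c S v ∧ c v = c l)).erase l) ∪
      (Finset.univ.filter (fun v => Ess G c (S.erase l) v ∧ ¬ Ess G c S v ∧ c v = c l)) := by
    ext v
    simp only [Finset.mem_filter, Finset.mem_univ, true_and, Finset.mem_union, Finset.mem_erase]
    constructor
    · rintro ⟨ha, hb⟩
      by_cases hv : Ess G c S v
      · exact Or.inl ⟨(Finset.mem_erase.1 ha.1).1, hv, hb⟩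
      · exact Or.inr ⟨ha, hv, hb⟩
    · rintro (⟨ha, hb, hc⟩ | ⟨ha, hb, hc⟩)
      · exact ⟨ess_erase hl hb ha, hc⟩
      · exact ⟨ha, hc⟩
  have h3 : Disjoint ((Finset.univ.filter (fun v => Ess G c S v ∧ c v = c l)).erase l)
      (Finset.univ.filter (fun v => Ess G c (S.erase l) v ∧ ¬ Ess G c S v ∧ c v = c l)) := by
    rw [Finset.disjoint_left]
    intro v hv hv'
    simp only [Finset.mem_filter, Finset.mem_univ, true_and, Finset.mem_erase] at hv hv'
    exact hv'.2.1 hv.2.1
  rw [h2, Finset.card_union_of_disjoint h3]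
  have h4 := congrArg Finset.card h1
  rw [Finset.card_insert_of_notMem (Finset.notMem_erase _ _)] at h4
  rw [h4]
  omega

lemma E_erase_other {c : V → Bool} {S : Finset V} {l : V} (hl : IsLeaf G S l) :
    E G c (S.erase l) (!c l) = E G c S (!c l) + (NewSet G c S l (!c l)).card := by
  classical
  unfold E NewSet
  have h2 : (Finset.univ.filter (fun v => Ess G c (S.erase l) v ∧ c v = !c l)) =
      (Finset.univ.filter (fun v => Ess G c S v ∧ c v = !c l)) ∪
      (Finset.univ.filter (fun v => Ess G c (S.erase l) v ∧ ¬ Ess G c S v ∧ c v = !c l)) := by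
    ext v
    simp only [Finset.mem_filter, Finset.mem_univ, true_and, Finset.mem_union]
    constructor
    · rintro ⟨ha, hb⟩
      by_cases hv : Ess G c S v
      · exact Or.inl ⟨hv, hb⟩
      · exact Or.inr ⟨ha, hv, hb⟩
    · rintro (⟨ha, hb⟩ | ⟨ha, hb, hc⟩)
      · refine ⟨ess_erase hl ha ?_, hb⟩
        rintro rfl
        simp at hb
      · exact ⟨ha, hc⟩
  have h3 : Disjoint (Finset.univ.filter (fun v => Ess G c S v ∧ c v = !c l))
      (Finset.univ.filter (fun v => Ess G c (S.erase l) v ∧ ¬ Ess G c S v ∧ c v = !c l)) := by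
    rw [Finset.disjoint_left]
    intro v hv hv'
    simp only [Finset.mem_filter, Finset.mem_univ, true_and] at hv hv'
    exact hv'.2.1 hv.1
  rw [h2, Finset.card_union_of_disjoint h3]

lemma new_le (hG : G.IsTree) {c : V → Bool} {S : Finset V} {l : V} (hl : IsLeaf G S l) :
    (NewSet G c S l (c l)).card ≤ (NewSet G c S l (!c l)).card := by
  classical
  have hsub : S.erase l ⊆ S := Finset.erase_subset l S
  refine Finset.card_le_card_of_forall_subsingleton
    (fun v p => ∃ w ∈ S.erase l, G.Adj v w ∧ ¬ Blk G c (S.erase l) (w, v) ∧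
      Step G (S.erase l) (w, v) (v, p) ∧ ∃ e, Reach G S (v, p) e ∧ e.2 = l) ?_ ?_
  · intro v hv
    simp only [NewSet, Finset.mem_filter, Finset.mem_univ, true_and] at hv ⊢
    obtain ⟨hv1, hv2, hcv⟩ := hv
    obtain ⟨hvS, hvl, hblk, w, hw, hvw, hnb⟩ := new_struct hv1 hv2
    obtain ⟨e, f, r1, r2, hfl, hlf, hc1, hc2⟩ :=
      L1 hl (d := (w, v)) (hsub hw) hvS hvw.symm (hblk w (hsub hw) hvw) hnb
    rcases Relation.ReflTransGen.cases_head r1 with h | ⟨x, hx, hx2⟩
    · subst h
      simp only at hc1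
      exact (hc2 (by rw [← hc1, hcv])).elim
    · obtain ⟨x1, p⟩ := x
      have hx1 : x1 = v := hx.1
      subst hx1
      have hpS : p ∈ S.erase l := hx.2.1
      have hvp : G.Adj x1 p := hx.2.2.1
      have hcp : c p ≠ c l := by
        intro h
        have := uniform hnb hx (by simp only; rw [hcv, h]) hx2
        simp only at this
        exact hc2 (by rw [← hc1, this, hcv])
      have hreach : Reach G S (x1, p) (f.2, l) :=
        (reach_mono hsub (hx2.tail r2)).tail ⟨rfl, hl.1, hfl, hlf⟩
      refine ⟨p, ⟨⟨hpS, Or.inr ⟨x1, hv1.1, hvp.symm, ?_⟩⟩, ?_, ?_⟩, w, hw, hvw, hnb, hx, _,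
        hreach, rfl⟩
      · intro h
        exact hnb (blk_of_reach (Relation.ReflTransGen.single hx) h)
      · rintro ⟨-, h | ⟨u, hu, hpu, hub⟩⟩
        · exact h x1 hvS hvp.symm
        · apply hub
          by_cases huv : u = x1
          · subst huv
            exact ⟨e, f, (f.2, l), reach_mono hsub hx2, step_mono hsub r2,
              ⟨rfl, hl.1, hfl, hlf⟩, hc1, hc2⟩
          · refine blk_of_reach (Relation.ReflTransGen.single ?_) (hblk p (hsub hpS) hvp)
            exact ⟨rfl, hvS, hvp.symm, fun h => huv h.symm⟩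
      · revert hcp
        cases c p <;> cases c l <;> simp
  · intro p hp v1 hv1 v2 hv2
    simp only [Set.mem_ofPred_eq, NewSet, Finset.mem_filter, Finset.mem_univ, true_and]
      at hv1 hv2
    obtain ⟨⟨a1, a2, a3⟩, w1, hw1, hvw1, hnb1, hs1, -⟩ := hv1
    obtain ⟨⟨b1, b2, b3⟩, w2, hw2, hvw2, hnb2, hs2, e2, he2, he2l⟩ := hv2
    by_contra hne
    obtain ⟨hv2S, hv2l, hblk2, -⟩ := new_struct b1 b2
    have hpS : p ∈ S.erase l := hs1.2.1
    have hadj2 : G.Adj v2 p := hs2.2.2.1
    have hst : Step G (S.erase l) (v1, p) (p, v2) := ⟨rfl, b1.1, hadj2.symm, fun h => hne h.symm⟩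
    have hnb : ¬ Blk G c (S.erase l) (p, v2) := fun h =>
      hnb1 (blk_of_reach ((Relation.ReflTransGen.single hs1).tail hst) h)
    obtain ⟨e', f', q1, q2, hfl', hlf', -, -⟩ := L1 hl (d := (p, v2)) (hsub hpS) hv2S hadj2.symm
      (hblk2 p (hsub hpS) hadj2) hnb
    have hreach : Reach G S (p, v2) (f'.2, l) :=
      (reach_mono hsub (q1.tail q2)).tail ⟨rfl, hl.1, hfl', hlf'⟩
    exact no_both hG hadj2.symm hreach he2 (by simp only; rw [he2l])

/-! ### The case in which every leaf of one colour is bad -/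

def Inn (G : SimpleGraph V) (c : V → Bool) (S : Finset V) (v u : V) : Prop :=
  u ∈ S ∧ G.Adj v u ∧ ¬ Blk G c S (u, v)

def IsPar (G : SimpleGraph V) (c : V → Bool) (S : Finset V) (r v p : V) : Prop :=
  Inn G c S v p ∧ ∀ u, Inn G c S v u → G.dist r p ≤ G.dist r u

lemma coherence (hG : G.IsTree) {c : V → Bool} {S : Finset V} {r v p y : V} (hv : v ∈ S)
    (hp : IsPar G c S r v p) (hy : y ∈ S) (hvy : G.Adj v y) (hyp : y ≠ p) :
    IsPar G c S r y v ∧ ∀ q, IsPar G c S r y q → q = v := by
  have hstep : Step G S (p, v) (v, y) := ⟨rfl, hy, hvy, hyp⟩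
  have hin : Inn G c S y v := ⟨hv, hvy.symm, fun h =>
    hp.1.2.2 (blk_of_reach (Relation.ReflTransGen.single hstep) h)⟩
  rcases lt_or_gt_of_ne (hG.dist_ne_of_adj r hvy) with h | h
  · refine ⟨⟨hin, fun u hu => ?_⟩, fun q hq => ?_⟩
    · by_cases huv : u = v
      · rw [huv]
      · have := farther hG hvy.symm hu.2.1 huv h
        omega
    · have h1 := hq.2 v hin
      exact closer_unique hG hq.1.2.1 hvy.symm (by omega) h
  · have h1 := farther hG hvy hp.1.2.1 hyp.symm h
    have hblk : Blk G c S (y, v) := by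
      by_contra hb
      have := hp.2 y ⟨hy, hvy, hb⟩
      omega
    have huniq : ∀ u, Inn G c S y u → u = v := by
      intro u hu
      by_contra huv
      apply hu.2.2
      refine blk_of_reach (Relation.ReflTransGen.single ?_) hblk
      exact ⟨rfl, hv, hvy.symm, fun h => huv h.symm⟩
    exact ⟨⟨hin, fun u hu => by rw [huniq u hu]⟩, fun q hq => huniq q hq.1⟩

lemma all_bad (hG : G.IsTree) {c : V → Bool} {S : Finset V} {κ : Bool}
    (hbad : ∀ l, IsLeaf G S l → c l = κ → ∃ v, Ess G c (S.erase l) v ∧ ¬ Ess G c S v) :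
    E G c S κ ≤ E G c S (!κ) := by
  classical
  obtain ⟨r⟩ := hG.connected.nonempty
  unfold E
  refine Finset.card_le_card_of_forall_subsingleton
    (fun v y => y ∈ S ∧ G.Adj v y ∧ ((∃ p, IsPar G c S r v p ∧ y ≠ p) ∨ IsLeaf G S v)) ?_ ?_
  · intro v hv
    simp only [Finset.mem_filter, Finset.mem_univ, true_and] at hv ⊢
    obtain ⟨hv, hcv⟩ := hv
    by_cases hleaf : IsLeaf G S v
    · obtain ⟨t, ht1, ht2⟩ := hbad v hleaf hcv
      obtain ⟨u, hu, hvu, hcu, hue, -⟩ := bad_struct hG hleaf ht1 ht2
      refine ⟨u, ⟨hue, ?_⟩, hu, hvu, Or.inr hleaf⟩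
      rw [hcv] at hcu
      revert hcu
      cases c u <;> cases κ <;> simp
    · have hab : ∃ a ∈ S, ∃ b ∈ S, G.Adj v a ∧ G.Adj v b ∧ a ≠ b := by
        by_contra hno
        apply hleaf
        refine ⟨hv.1, fun a ha b hb h1 h2 => ?_⟩
        by_contra h3
        exact hno ⟨a, ha, b, hb, h1, h2, h3⟩
      obtain ⟨a, ha, b, hb, hva, hvb, hab⟩ := hab
      have hI : ∃ u, Inn G c S v u := by
        rcases hv.2 with h | ⟨u, hu, h1, h2⟩
        · exact (h a ha hva).elim
        · exact ⟨u, hu, h1, h2⟩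
      obtain ⟨u0, hu0⟩ := hI
      obtain ⟨p, hp, hpmin⟩ := Finset.exists_min_image
        (Finset.univ.filter (fun u => Inn G c S v u)) (fun u => G.dist r u)
        ⟨u0, by simp only [Finset.mem_filter, Finset.mem_univ, true_and]; exact hu0⟩
      simp only [Finset.mem_filter, Finset.mem_univ, true_and] at hp hpmin
      have hpar : IsPar G c S r v p := ⟨hp, hpmin⟩
      obtain ⟨y0, hy0, hvy0, hy0p⟩ : ∃ y0 ∈ S, G.Adj v y0 ∧ y0 ≠ p := by
        by_cases hap : a = p
        · exact ⟨b, hb, hvb, fun h => hab (hap.trans h.symm)⟩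
        · exact ⟨a, ha, hva, hap⟩
      have hgood : ∀ y ∈ S, G.Adj v y → y ≠ p → c y ≠ κ →
          ∃ b, (Ess G c S b ∧ c b = !κ) ∧ b ∈ S ∧ G.Adj v b ∧
            ((∃ p, IsPar G c S r v p ∧ b ≠ p) ∨ IsLeaf G S v) := by
        intro y hy hvy hyp hcy
        have hco := (coherence hG hv.1 hpar hy hvy hyp).1.1
        refine ⟨y, ⟨⟨hy, Or.inr ⟨v, hv.1, hco.2.1, hco.2.2⟩⟩, ?_⟩, hy, hvy,
          Or.inl ⟨p, hpar, hyp⟩⟩
        revert hcy
        cases c y <;> cases κ <;> simp
      by_cases hcy : c y0 = κ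
      · exfalso
        have hstep : Step G S (p, v) (v, y0) := ⟨rfl, hy0, hvy0, hy0p⟩
        have hun : ∀ e, Reach G S (v, y0) e → c e.2 = κ := by
          intro e he
          have := uniform hp.2.2 hstep (by simp only; rw [hcv, hcy]) he
          rw [this]
          exact hcv
        obtain ⟨e, he, hle, he1, hea⟩ := end_leaf hG (d := (v, y0)) hv.1 hy0 hvy0
        obtain ⟨t, ht1, ht2⟩ := hbad e.2 hle (hun e he)
        obtain ⟨u, hu, heu, hcu, -, -⟩ := bad_struct hG hle ht1 ht2
        have hue : u = e.1 := hle.2 _ hu _ he1 heu hea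
        apply hcu
        rw [hun e he, hue]
        rcases Relation.ReflTransGen.cases_tail he with h | ⟨x, hx, hx2⟩
        · rw [h]
          exact hcv
        · rw [hx2.1]
          exact hun x hx
      · exact hgood y0 hy0 hvy0 hy0p hcy
  · intro y hy v1 hv1 v2 hv2
    simp only [Set.mem_ofPred_eq, Finset.mem_filter, Finset.mem_univ, true_and] at hv1 hv2
    obtain ⟨⟨a1, a2⟩, a3, a4, a5⟩ := hv1
    obtain ⟨⟨b1, b2⟩, b3, b4, b5⟩ := hv2
    have hleafcase : ∀ v w : V, v ∈ S → w ∈ S → c v = κ → c w = κ → G.Adj v y → G.Adj w y →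
        IsLeaf G S v → v = w := by
      intro v w hv hw hcv hcw hvy hwy hlv
      obtain ⟨t, ht1, ht2⟩ := hbad v hlv hcv
      obtain ⟨u, hu, hvu, -, -, hz⟩ := bad_struct hG hlv ht1 ht2
      have huy : u = y := hlv.2 _ hu _ a3 hvu hvy
      subst huy
      by_contra hne
      exact hz w hw hwy.symm (fun h => hne h.symm) (hcw.trans hcv.symm)
    rcases a5 with ⟨p1, hp1, hyp1⟩ | hl1
    · rcases b5 with ⟨p2, hp2, hyp2⟩ | hl2
      · have h1 := coherence hG a1.1 hp1 a3 a4 hyp1
        have h2 := coherence hG b1.1 hp2 b3 b4 hyp2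
        exact (h1.2 _ h2.1).symm
      · exact (hleafcase v2 v1 b1.1 a1.1 b2 a2 b4 a4 hl2).symm
    · exact hleafcase v1 v2 a1.1 b1.1 a2 b2 a4 b4 hl1

/-! ### The outcome of the game plus an integer -/

def sgn (p : Bool) : ℤ := if p then 1 else -1

noncomputable def adv (G : SimpleGraph V) (c : V → Bool) (S : Finset V) (p : Bool) : ℤ :=
  (E G c S p : ℤ) - E G c S (!p)

lemma adv_not (c : V → Bool) (S : Finset V) (p : Bool) : adv G c S (!p) = - adv G c S p := by
  unfold adv
  rw [Bool.not_not]
  ring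

lemma adv_erase (hG : G.IsTree) {c : V → Bool} {S : Finset V} {l : V} (hl : IsLeaf G S l) :
    adv G c (S.erase l) (c l) ≤ adv G c S (c l) - 1 := by
  have h1 := E_erase_same (c := c) hl
  have h2 := E_erase_other (c := c) hl
  have h3 := new_le hG (c := c) hl
  unfold adv
  omega

lemma adv_erase_good {c : V → Bool} {S : Finset V} {l : V} (hl : IsLeaf G S l)
    (hgood : ¬ ∃ v, Ess G c (S.erase l) v ∧ ¬ Ess G c S v) :
    adv G c (S.erase l) (c l) = adv G c S (c l) - 1 := by
  classical
  have h1 := E_erase_same (c := c) hl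
  have h2 := E_erase_other (c := c) hl
  have h3 : ∀ κ, (NewSet G c S l κ).card = 0 := by
    intro κ
    rw [Finset.card_eq_zero, Finset.eq_empty_iff_forall_notMem]
    intro v hv
    simp only [NewSet, Finset.mem_filter, Finset.mem_univ, true_and] at hv
    exact hgood ⟨v, hv.1, hv.2.1⟩
  rw [h3] at h1 h2
  unfold adv
  omega

lemma wins_iff (hG : G.IsTree) (c : V → Bool) : ∀ (n : ℕ) (S : Finset V) (k : ℤ) (p : Bool),
    S.card + k.natAbs = n → (Wins G c p S k ↔ 0 < adv G c S p + sgn p * k) := by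
  intro n
  induction n using Nat.strong_induction_on with
  | _ n ih =>
    intro S k p hn
    rw [Wins]
    constructor
    · rintro (⟨v, hv, hl, hcv, hw⟩ | ⟨⟨rfl, hk⟩, hw⟩ | ⟨⟨rfl, hk⟩, hw⟩)
      · subst hcv
        have hlt := Finset.card_erase_lt_of_mem hv
        rw [ih _ (by omega) (S.erase v) k (!c v) rfl, adv_not] at hw
        have h1 := adv_erase hG (c := c) hl
        cases hc : c v <;> rw [hc] at hw h1 <;> simp only [sgn] at hw ⊢ <;> simp at hw ⊢ <;> omega
      · rw [ih _ (by omega) S (k - 1) (!true) rfl, adv_not] at hw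
        simp only [sgn] at hw ⊢
        simp at hw ⊢
        omega
      · rw [ih _ (by omega) S (k + 1) (!false) rfl, adv_not] at hw
        simp only [sgn] at hw ⊢
        simp at hw ⊢
        omega
    · intro hpos
      by_cases hgood : ∃ l, IsLeaf G S l ∧ c l = p ∧
          ¬ ∃ v, Ess G c (S.erase l) v ∧ ¬ Ess G c S v
      · obtain ⟨l, hl, hcl, hg⟩ := hgood
        subst hcl
        refine Or.inl ⟨l, hl.1, hl, rfl, ?_⟩
        have hlt := Finset.card_erase_lt_of_mem hl.1
        rw [ih _ (by omega) (S.erase l) k (!c l) rfl, adv_not, adv_erase_good hl hg]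
        cases hc : c l <;> rw [hc] at hpos <;> simp only [sgn] at hpos ⊢ <;>
          simp at hpos ⊢ <;> omega
      · have hbad : ∀ l, IsLeaf G S l → c l = p →
            ∃ v, Ess G c (S.erase l) v ∧ ¬ Ess G c S v := by
          intro l hl hcl
          by_contra hno
          exact hgood ⟨l, hl, hcl, hno⟩
        have h1 := all_bad hG hbad
        have h2 : adv G c S p ≤ 0 := by
          unfold adv
          omega
        cases p
        · have hk : k < 0 := by
            simp only [sgn] at hpos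
            simp at hpos
            omega
          refine Or.inr (Or.inr ⟨⟨rfl, hk⟩, ?_⟩)
          rw [ih _ (by omega) S (k + 1) (!false) rfl, adv_not]
          simp only [sgn] at hpos ⊢
          simp at hpos ⊢
          omega
        · have hk : 0 < k := by
            simp only [sgn] at hpos
            simp at hpos
            omega
          refine Or.inr (Or.inl ⟨⟨rfl, hk⟩, ?_⟩)
          rw [ih _ (by omega) S (k - 1) (!true) rfl, adv_not]
          simp only [sgn] at hpos ⊢
          simp at hpos ⊢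
          omega

/-! ### The explicit description for the whole tree -/

lemma exists_closer (hG : G.IsTree) {v x : V} {n : ℕ} (h : G.dist v x = n + 1) :
    ∃ w, G.Adj x w ∧ G.dist v w = n := by
  obtain ⟨p, hp⟩ := hG.connected.exists_walk_length_eq_dist x v
  cases p with
  | nil =>
    rw [SimpleGraph.dist_self] at h
    omega
  | @cons _ w _ hadj q =>
    refine ⟨w, hadj, ?_⟩
    rw [SimpleGraph.Walk.length_cons] at hp
    have h1 := G.dist_le q
    have h2 := hG.dist_eq_dist_add_one_of_adj v hadj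
    have c1 := G.dist_comm (u := x) (v := v)
    have c2 := G.dist_comm (u := w) (v := v)
    omega

lemma reach_of_branch (hG : G.IsTree) {u v : V} (huv : G.Adj u v) : ∀ (n : ℕ) (x : V),
    G.dist v x = n → G.dist u x = G.dist v x + 1 →
    ∃ e, Reach G Finset.univ (u, v) e ∧ e.2 = x := by
  intro n
  have h0 : G.dist u (u, v).1 < G.dist u (u, v).2 := by
    simp only
    rw [SimpleGraph.dist_self]
    exact hG.connected.pos_dist_of_ne huv.ne
  induction n with
  | zero =>
    intro x hx _
    exact ⟨(u, v), .refl, (hG.connected.dist_eq_zero_iff).1 hx⟩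
  | succ n ih =>
    intro x hx hux
    obtain ⟨w, hxw, hw⟩ := exists_closer hG hx
    have h1 := hG.dist_eq_dist_add_one_of_adj u hxw
    have h2 := hG.dist_eq_dist_add_one_of_adj w huv
    have c1 := G.dist_comm (u := w) (v := u)
    have c2 := G.dist_comm (u := w) (v := v)
    obtain ⟨e, he, hew⟩ := ih w hw (by omega)
    refine ⟨(w, x), he.tail ⟨hew.symm, Finset.mem_univ _, by rw [hew]; exact hxw.symm, ?_⟩, rfl⟩
    intro hxe
    have h3 := reach_away hG (d := (u, v)) huv h0 he
    rw [hew] at h3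
    simp only at hxe
    rw [← hxe] at h3
    omega

lemma blk_univ_iff (hG : G.IsTree) (c : V → Bool) {u v : V} (huv : G.Adj u v) :
    Blk G c Finset.univ (u, v) ↔ Blocked G c u v := by
  have h0 : G.dist u (u, v).1 < G.dist u (u, v).2 := by
    simp only
    rw [SimpleGraph.dist_self]
    exact hG.connected.pos_dist_of_ne huv.ne
  constructor
  · rintro ⟨e, f, g, h1, h2, h3, h4, h5⟩
    have t1 := reach_toward hG (d := (u, v)) huv h1
    have t2 := reach_away hG (d := (u, v)) huv h0 (h1.tail h2)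
    have t3 := reach_away hG (d := (u, v)) huv h0 ((h1.tail h2).tail h3)
    rw [h2.1] at t2
    rw [h3.1] at t3
    have a1 := hG.dist_eq_dist_add_one_of_adj e.2 huv
    have a2 := hG.dist_eq_dist_add_one_of_adj u h2.2.2.1
    have a3 := hG.dist_eq_dist_add_one_of_adj u h3.2.2.1
    have c1 := G.dist_comm (u := e.2) (v := u)
    have c2 := G.dist_comm (u := e.2) (v := v)
    simp only at t1
    exact ⟨e.2, f.2, g.2, by omega, h2.2.2.1, by omega, h3.2.2.1, by omega, h4, h5⟩
  · rintro ⟨x, y, z, h1, hxy, h2, hyz, h3, h4, h5⟩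
    obtain ⟨e, he, hex⟩ := reach_of_branch hG huv _ x rfl h1
    have t1 := reach_away hG (d := (u, v)) huv h0 he
    rw [hex] at t1
    refine ⟨e, (x, y), (y, z), he, ⟨hex.symm, Finset.mem_univ _, by rw [hex]; exact hxy, ?_⟩,
      ⟨rfl, Finset.mem_univ _, hyz, ?_⟩, by rw [hex]; exact h4, h5⟩
    · intro h
      simp only at h
      rw [← h] at t1
      omega
    · intro h
      simp only at h
      rw [h] at h3
      omega

lemma ess_univ_iff (hG : G.IsTree) (c : V → Bool) (v : V) :
    Ess G c Finset.univ v ↔ Essential G c v := by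
  unfold Ess Essential
  constructor
  · rintro ⟨-, h | ⟨u, -, hvu, hb⟩⟩
    · exact Or.inl fun u => h u (Finset.mem_univ u)
    · exact Or.inr ⟨u, hvu, fun h => hb ((blk_univ_iff hG c hvu.symm).2 h)⟩
  · rintro (h | ⟨u, hvu, hb⟩)
    · exact ⟨Finset.mem_univ v, Or.inl fun u _ => h u⟩
    · exact ⟨Finset.mem_univ v, Or.inr ⟨u, Finset.mem_univ u, hvu,
        fun h => hb ((blk_univ_iff hG c hvu.symm).1 h)⟩⟩

end internal

/-- The leaf-removal game on a coloured tree has value
`(number of white essential vertices) - (number of black essential vertices)`. -/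
theorem result (V : Type) [Fintype V] [DecidableEq V] (G : SimpleGraph V) (hG : G.IsTree)
    (white : V → Bool) (n : ℤ) :
    HasValue G white n ↔
      n = ({v : V | Essential G white v ∧ white v = true}.ncard : ℤ) -
        ({v : V | Essential G white v ∧ white v = false}.ncard : ℤ) := by
  classical
  have hE : ∀ κ : Bool, E G white Finset.univ κ =
      {v : V | Essential G white v ∧ white v = κ}.ncard := by
    intro κ
    unfold E
    rw [← Set.ncard_coe_finset]
    congr 1
    ext v
    simp only [Finset.coe_filter, Finset.mem_univ, true_and, Set.mem_ofPred_eq]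
    rw [ess_univ_iff hG]
  have hadv : adv G white Finset.univ true =
      ({v : V | Essential G white v ∧ white v = true}.ncard : ℤ) -
        ({v : V | Essential G white v ∧ white v = false}.ncard : ℤ) := by
    unfold adv
    rw [hE, hE]
    rfl
  rw [← hadv]
  unfold HasValue
  have h1 := wins_iff hG white _ Finset.univ (-n) true rfl
  have h2 := wins_iff hG white _ Finset.univ (-n) false rfl
  have h3 := adv_not (G := G) white Finset.univ true
  simp only [Bool.not_true] at h3
  simp only [sgn] at h1 h2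
  simp at h1 h2
  rw [h3] at h2
  constructor
  · intro h
    have a1 := h true
    have a2 := h false
    rw [h1] at a1
    rw [h2] at a2
    omega
  · rintro h (_ | _)
    · rw [h2]
      omega
    · rw [h1]
      omega

end Pool.Agent.Results.MP_1304b2_co.LeafRemoval
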